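import Mathlib

/-!
A binary linear code of length `12` and dimension `6` whose permutation automorphism group is
`{1, (1 2)(3 4)(5 6)(7 8)(9 10)(11 12)}`.
-/

namespace Pool.Agent.Results.MP_e1d516_co.OrderTwo

/-- The permutation automorphism group of the linear code `C`, as a set: the permutations `β` of
the coordinates with `C^β = C`, where `c^β (i) = c (β⁻¹ i)`. -/
def PAut {n : ℕ} (C : Submodule (ZMod 2) (Fin n → ZMod 2)) : Set (Equiv.Perm (Fin n)) :=
  {β | (fun (c : Fin n → ZMod 2) (i : Fin n) => c (β⁻¹ i)) '' (C : Set (Fin n → ZMod 2)) =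
    (C : Set (Fin n → ZMod 2))}

/-- The partner of a coordinate: `0 ↔ 1`, `2 ↔ 3`, and so on. -/
def partner (m : ℕ) (i : Fin (2 * m)) : Fin (2 * m) :=
  if h : i.val % 2 = 0 then ⟨i.val + 1, by have := i.2; omega⟩
  else ⟨i.val - 1, by have := i.2; omega⟩

theorem partner_val (m : ℕ) (i : Fin (2 * m)) :
    (partner m i).val = if i.val % 2 = 0 then i.val + 1 else i.val - 1 := by
  unfold partner
  split_ifs <;> rfl

theorem partner_involutive (m : ℕ) : Function.Involutive (partner m) := by
  intro i
  apply Fin.ext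
  rw [partner_val, partner_val]
  split_ifs <;> omega

/-- The fixed-point-free involution `(1,2)(3,4)...(2m-1,2m)`. -/
def sigma (m : ℕ) : Equiv.Perm (Fin (2 * m)) := (partner_involutive m).toPerm

/-- The codewords as bit masks. -/
def L : List ℕ := [0, 116, 184, 204, 309, 321, 397, 505, 570, 590, 642, 758, 783, 891, 951, 963, 1049, 1133, 1185, 1237, 1324, 1368, 1428, 1504, 1571, 1623, 1691, 1775, 1814, 1890, 1966, 2010, 2086, 2130, 2206, 2282, 2323, 2407, 2475, 2527, 2588, 2664, 2724, 2768, 2857, 2909, 2961, 3045, 3135, 3147, 3207, 3315, 3338, 3454, 3506, 3526, 3589, 3697, 3773, 3785, 3888, 3908, 3976, 4092]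

/-- A basis, as bit masks. -/
def basisL : List ℕ := [2768, 1504, 758, 505, 184, 116]

/-- The vector with a given bit mask. -/
def dec (k : ℕ) : Fin (2 * 6) → ZMod 2 := fun i => if k.testBit i then 1 else 0

theorem dec_xor (a b : ℕ) : dec (a ^^^ b) = dec a + dec b := by
  funext i
  simp only [dec, Nat.testBit_xor, Pi.add_apply]
  cases a.testBit i <;> cases b.testBit i <;> decide

set_option maxRecDepth 100000 in
theorem L_xor : ∀ a ∈ L, ∀ b ∈ L, a ^^^ b ∈ L := by decide

/-- The code. -/
def C : Submodule (ZMod 2) (Fin (2 * 6) → ZMod 2) where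
  carrier := {x | ∃ k ∈ L, x = dec k}
  zero_mem' := ⟨0, by decide, by funext i; simp [dec]⟩
  add_mem' := by
    rintro _ _ ⟨a, ha, rfl⟩ ⟨b, hb, rfl⟩
    exact ⟨a ^^^ b, L_xor a ha b hb, (dec_xor a b).symm⟩
  smul_mem' := by
    rintro c _ ⟨a, ha, rfl⟩
    have hc : c = 0 ∨ c = 1 := by revert c; decide
    rcases hc with rfl | rfl
    · exact ⟨0, by decide, by funext i; simp [dec]⟩
    · exact ⟨a, ha, by simp⟩

theorem mem_C {x : Fin (2 * 6) → ZMod 2} : x ∈ C ↔ ∃ k ∈ L, x = dec k := Iff.rfl

/-- The finite set of codewords. -/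
def S : Finset (Fin (2 * 6) → ZMod 2) := (L.map dec).toFinset

theorem mem_S {x : Fin (2 * 6) → ZMod 2} : x ∈ S ↔ x ∈ C := by
  rw [S, List.mem_toFinset, List.mem_map, mem_C]
  constructor
  · rintro ⟨k, hk, rfl⟩; exact ⟨k, hk, rfl⟩
  · rintro ⟨k, hk, rfl⟩; exact ⟨k, hk, rfl⟩

/-- The weight of a vector. -/
def wt (x : Fin (2 * 6) → ZMod 2) : ℕ := (Finset.univ.filter fun i => x i = 1).card

/-- The invariant separating the pairs of coordinates. -/
def mu (i : Fin (2 * 6)) : ℕ := ∑ x ∈ S, if x i = 1 then wt x ^ 3 else 0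

/-- The number of ones of a mask. -/
def pop (k : ℕ) : ℕ := ((List.range 12).map fun i => if k.testBit i then 1 else 0).sum

theorem dec_eq_one (k : ℕ) (i : Fin (2 * 6)) : dec k i = 1 ↔ k.testBit i = true := by
  unfold dec
  cases k.testBit i <;> decide

theorem wt_dec (k : ℕ) : wt (dec k) = pop k := by
  unfold wt pop
  rw [Finset.card_filter]
  simp only [dec_eq_one]
  rw [← Finset.sum_range (fun i => if k.testBit i = true then 1 else 0) (n := 2 * 6)]
  rfl

theorem testBit_le : ∀ k ∈ L, k < 2 ^ 12 := by decide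

theorem dec_injOn {a b : ℕ} (ha : a ∈ L) (hb : b ∈ L) (h : dec a = dec b) : a = b := by
  apply Nat.eq_of_testBit_eq
  intro i
  by_cases hi : i < 12
  · have h1 := congrFun h ⟨i, hi⟩
    have h2 := dec_eq_one a ⟨i, hi⟩
    have h3 := dec_eq_one b ⟨i, hi⟩
    rw [h1, h3] at h2
    simp only at h2
    cases h4 : a.testBit i <;> cases h5 : b.testBit i <;> simp_all
  · have h1 : ∀ k ∈ L, k.testBit i = false := by
      intro k hk
      exact Nat.testBit_lt_two_pow ((testBit_le k hk).trans_le
        (Nat.pow_le_pow_right (by norm_num) (by omega)))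
    rw [h1 a ha, h1 b hb]

theorem L_nodup : L.Nodup := by decide

theorem mu_eq (i : Fin (2 * 6)) :
    mu i = (L.map fun k => if k.testBit i = true then pop k ^ 3 else 0).sum := by
  unfold mu S
  rw [List.sum_toFinset]
  · rw [List.map_map]
    congr 1
    apply List.map_congr_left
    intro k _
    simp only [Function.comp_apply, dec_eq_one, wt_dec]
  · exact (List.nodup_map_iff_inj_on L_nodup).2 fun a ha b hb h => dec_injOn ha hb h

set_option maxRecDepth 100000 in
theorem mu_table : ∀ i : Fin (2 * 6),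
    (L.map fun k => if k.testBit i = true then pop k ^ 3 else 0).sum = ([10168, 10168, 10552, 10552, 10528, 10528, 10504, 10504, 10216, 10216, 10240, 10240] : List ℕ)[i.val]! := by
  decide

set_option maxRecDepth 100000 in
theorem mu_sep : ∀ i j : Fin (2 * 6), ([10168, 10168, 10552, 10552, 10528, 10528, 10504, 10504, 10216, 10216, 10240, 10240] : List ℕ)[i.val]! = ([10168, 10168, 10552, 10552, 10528, 10528, 10504, 10504, 10216, 10216, 10240, 10240] : List ℕ)[j.val]! →
    j = i ∨ j = partner 6 i := by
  decide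

/-- An automorphism preserves the invariant. -/
theorem mu_aut {β : Equiv.Perm (Fin (2 * 6))} (hβ : β ∈ PAut C) (i : Fin (2 * 6)) :
    mu (β i) = mu i := by
  have hβ' : (fun (c : Fin (2 * 6) → ZMod 2) (i : Fin (2 * 6)) => c (β⁻¹ i)) ''
      (C : Set (Fin (2 * 6) → ZMod 2)) = (C : Set (Fin (2 * 6) → ZMod 2)) := hβ
  unfold mu
  symm
  refine Finset.sum_bij (fun c _ => fun i => c (β⁻¹ i)) ?_ ?_ ?_ ?_
  · intro c hc
    rw [mem_S] at hc ⊢
    have : (fun i => c (β⁻¹ i)) ∈ (fun (c : Fin (2 * 6) → ZMod 2) (i : Fin (2 * 6)) => c (β⁻¹ i)) ''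
      (C : Set (Fin (2 * 6) → ZMod 2)) := ⟨c, hc, rfl⟩
    rw [hβ'] at this
    exact this
  · intro c _ c' _ h
    funext j
    have := congrFun h (β j)
    simpa using this
  · intro d hd
    rw [mem_S] at hd
    have : d ∈ (fun (c : Fin (2 * 6) → ZMod 2) (i : Fin (2 * 6)) => c (β⁻¹ i)) ''
      (C : Set (Fin (2 * 6) → ZMod 2)) := by rw [hβ']; exact hd
    obtain ⟨c, hc, rfl⟩ := this
    exact ⟨c, mem_S.2 hc, rfl⟩
  · intro c _
    have hwt : wt (fun i => c (β⁻¹ i)) = wt c := by
      unfold wt
      refine Finset.card_bij (fun i _ => β⁻¹ i) ?_ ?_ ?_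
      · intro i hi
        rw [Finset.mem_filter] at hi ⊢
        exact ⟨Finset.mem_univ _, hi.2⟩
      · intro i _ j _ h
        exact β⁻¹.injective h
      · intro i hi
        rw [Finset.mem_filter] at hi
        refine ⟨β i, ?_, by simp⟩
        rw [Finset.mem_filter]
        exact ⟨Finset.mem_univ _, by simpa using hi.2⟩
    have hii : β⁻¹ (β i) = i := by simp
    simp only [hii, hwt]

/-- An automorphism preserves the pairs. -/
theorem aut_pairs {β : Equiv.Perm (Fin (2 * 6))} (hβ : β ∈ PAut C) (i : Fin (2 * 6)) :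
    β i = i ∨ β i = partner 6 i := by
  have h := mu_aut hβ i
  rw [mu_eq, mu_eq, mu_table, mu_table] at h
  exact mu_sep i (β i) h.symm

/-- Flipping the pairs selected by the bits of `f` in the mask `b`. -/
def flipMask (f b : ℕ) : ℕ :=
  ((List.range 12).map fun i =>
    if b.testBit (if f.testBit (i / 2) then (if i % 2 = 0 then i + 1 else i - 1) else i)
      then 2 ^ i else 0).sum

set_option maxRecDepth 100000 in
theorem flip_dec : ∀ f < 64, ∀ b ∈ basisL, ∀ i : Fin (2 * 6),
    (flipMask f b).testBit i =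
      b.testBit (if f.testBit (i.val / 2) then partner 6 i else i : Fin (2 * 6)).val := by
  decide

set_option maxRecDepth 100000 in
theorem flip_lt : ∀ f < 64, ∀ b ∈ basisL, flipMask f b < 2 ^ 12 := by
  decide

set_option maxRecDepth 100000 in
theorem flip_code : ∀ f < 64, (∀ b ∈ basisL, flipMask f b ∈ L) → f = 0 ∨ f = 63 := by
  decide

set_option maxRecDepth 100000 in
theorem exists_bits : ∀ p : Fin 6 → Bool, ∃ f < 64, ∀ i : Fin 6, f.testBit i = p i := by
  decide

theorem basis_sub : ∀ b ∈ basisL, b ∈ L := by decide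

set_option maxRecDepth 100000 in
theorem L_span : ∀ k ∈ L, flipMask 63 k ∈ L ∧
    ∀ i : Fin (2 * 6), (flipMask 63 k).testBit i = k.testBit (partner 6 i).val := by
  decide

theorem partner_div (i : Fin (2 * 6)) : (partner 6 i).val / 2 = i.val / 2 := by
  unfold partner
  split_ifs <;> simp only <;> omega

theorem partner_ne (i : Fin (2 * 6)) : partner 6 i ≠ i := by
  unfold partner
  intro h
  have := congrArg Fin.val h
  split_ifs at this <;> simp only at this <;> omega

theorem sigma_mem : sigma 6 ∈ PAut C := by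
  have hmem : ∀ c ∈ C, (fun i => c (partner 6 i)) ∈ C := by
    rintro c ⟨k, hk, rfl⟩
    refine ⟨flipMask 63 k, (L_span k hk).1, ?_⟩
    funext i
    simp only [dec, (L_span k hk).2 i]
  have hinv : ∀ i, (sigma 6)⁻¹ i = partner 6 i := by
    intro i
    rw [Equiv.Perm.inv_eq_iff_eq]
    exact (partner_involutive 6 i).symm
  change (fun (c : Fin (2 * 6) → ZMod 2) (i : Fin (2 * 6)) => c ((sigma 6)⁻¹ i)) ''
      (C : Set (Fin (2 * 6) → ZMod 2)) = (C : Set (Fin (2 * 6) → ZMod 2))
  simp only [hinv]
  ext d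
  constructor
  · rintro ⟨c, hc, rfl⟩
    exact hmem c hc
  · intro hd
    refine ⟨fun i => d (partner 6 i), hmem d hd, ?_⟩
    funext i
    simp only [partner_involutive 6 i]

theorem one_mem_PAut : (1 : Equiv.Perm (Fin (2 * 6))) ∈ PAut C := by
  change (fun (c : Fin (2 * 6) → ZMod 2) (i : Fin (2 * 6)) =>
    c ((1 : Equiv.Perm (Fin (2 * 6)))⁻¹ i)) '' (C : Set (Fin (2 * 6) → ZMod 2)) =
      (C : Set (Fin (2 * 6) → ZMod 2))
  simp

theorem PAut_sub {β : Equiv.Perm (Fin (2 * 6))} (hβ : β ∈ PAut C) : β = 1 ∨ β = sigma 6 := by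
  have hpairs := aut_pairs hβ
  obtain ⟨f, hf, hbits⟩ := exists_bits fun p => decide (β ⟨2 * p.val, by omega⟩ =
    partner 6 ⟨2 * p.val, by omega⟩)
  -- `β` flips exactly the pairs selected by `f`
  have hβf : ∀ i : Fin (2 * 6), β i = if f.testBit (i.val / 2) then partner 6 i else i := by
    intro i
    have h1 := hbits ⟨i.val / 2, by omega⟩
    simp only at h1
    rw [h1]
    by_cases heven : i.val % 2 = 0
    · have hi : (⟨2 * (i.val / 2), by omega⟩ : Fin (2 * 6)) = i := Fin.ext (by simp only; omega)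
      simp only [hi, decide_eq_true_eq]
      split_ifs with h
      · exact h
      · exact (hpairs i).resolve_right h
    · have hi : (⟨2 * (i.val / 2), by omega⟩ : Fin (2 * 6)) = partner 6 i := by
        apply Fin.ext
        unfold partner
        rw [dif_neg heven]
        simp only
        omega
      simp only [hi, decide_eq_true_eq, partner_involutive 6 i]
      split_ifs with h
      · -- the partner goes to `i`, so `i` goes to the partner
        rcases hpairs i with h2 | h2
        · exact absurd (β.injective (h.trans h2.symm)) (partner_ne i)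
        · exact h2
      · rcases hpairs (partner 6 i) with h2 | h2
        · rcases hpairs i with h3 | h3
          · exact h3
          · exact absurd (β.injective (h2.trans h3.symm)) (partner_ne i)
        · rw [partner_involutive 6 i] at h2
          exact absurd h2 h
  have hβinv : ∀ i : Fin (2 * 6), β⁻¹ i = if f.testBit (i.val / 2) then partner 6 i else i := by
    intro i
    rw [Equiv.Perm.inv_eq_iff_eq, hβf]
    split_ifs with h1 h2 h2
    · exact (partner_involutive 6 i).symm
    · rw [partner_div] at h2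
      exact absurd h1 h2
    · rfl
  have hcode : ∀ b ∈ basisL, flipMask f b ∈ L := by
    intro b hb
    have hmem : (fun i => dec b (β⁻¹ i)) ∈ C := by
      have hβ' : (fun (c : Fin (2 * 6) → ZMod 2) (i : Fin (2 * 6)) => c (β⁻¹ i)) ''
        (C : Set (Fin (2 * 6) → ZMod 2)) = (C : Set (Fin (2 * 6) → ZMod 2)) := hβ
      have : (fun i => dec b (β⁻¹ i)) ∈
          (fun (c : Fin (2 * 6) → ZMod 2) (i : Fin (2 * 6)) => c (β⁻¹ i)) ''
            (C : Set (Fin (2 * 6) → ZMod 2)) := ⟨dec b, ⟨b, basis_sub b hb, rfl⟩, rfl⟩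
      rw [hβ'] at this
      exact this
    obtain ⟨k, hk, hkeq⟩ := hmem
    have heq : dec (flipMask f b) = dec k := by
      rw [← hkeq]
      funext i
      simp only [dec, hβinv, flip_dec f hf b hb i]
    have : flipMask f b = k := by
      apply Nat.eq_of_testBit_eq
      intro i
      by_cases hi : i < 12
      · have h1 := congrFun heq ⟨i, hi⟩
        have h2 := dec_eq_one (flipMask f b) ⟨i, hi⟩
        have h3 := dec_eq_one k ⟨i, hi⟩
        rw [h1, h3] at h2
        simp only at h2
        cases h4 : (flipMask f b).testBit i <;> cases h5 : k.testBit i <;> simp_all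
      · rw [Nat.testBit_lt_two_pow ((flip_lt f hf b hb).trans_le
          (Nat.pow_le_pow_right (by norm_num) (by omega))),
          Nat.testBit_lt_two_pow ((testBit_le k hk).trans_le
          (Nat.pow_le_pow_right (by norm_num) (by omega)))]
    rw [this]
    exact hk
  rcases flip_code f hf hcode with rfl | rfl
  · left
    ext i
    rw [hβf]
    simp
  · right
    ext i
    rw [hβf]
    have : ∀ i : Fin (2 * 6), (63 : ℕ).testBit (i.val / 2) = true := by decide
    rw [if_pos (this i)]
    rfl

/-- There is a binary linear code of even length `2m`, `m ≥ 2`, whose permutation automorphism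
group is exactly `{1, (1,2)(3,4)...(2m-1,2m)}`. -/
theorem result : ∃ m : ℕ, 2 ≤ m ∧ ∃ C : Submodule (ZMod 2) (Fin (2 * m) → ZMod 2),
    PAut C = {1, sigma m} := by
  refine ⟨6, by norm_num, C, ?_⟩
  ext β
  simp only [Set.mem_insert_iff, Set.mem_singleton_iff]
  constructor
  · exact PAut_sub
  · rintro (rfl | rfl)
    · exact one_mem_PAut
    · exact sigma_mem

end Pool.Agent.Results.MP_e1d516_co.OrderTwo
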